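import Mathlib

/-!
# Project NE (MP_460089_an, negative answer), inequality (I)

`gauss_ineq`: if `∑ |u i| ≤ 1`, `n i ≥ 0` and `∫_0^∞ (∑ u i e^{-a n_i})² (1+a)^{-2} da ≤ ε²`, then
`|∑ u i exp (-n_i²)| ≤ C ε^{1/3}`.

Proof (helper58).  `om = e^{iπ/3}`, `cc = -om²/4`, `Phi z = ∫_0^∞ exp (-cc x² - z x) dx` (entire).
`HH w = ∑ u i om Phi (n_i e^{iπw/2}) e^{w²}` is at most `G0 e` on the strip `0 ≤ Re w ≤ 1`, at most
`C ε` on `Re w = 0`, so at most `C ε^{1/3}` at `w = 2/3` (Hadamard), and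
`Im (om Phi (om n)) = √π e^{-n²}` (by `Phi' = (z Phi - 1) / (2 cc)` the derivative of
`e^{n²} om Phi (om n)` is real, and `om Phi 0 = i √π`).
-/

set_option autoImplicit false

open Complex MeasureTheory Set Filter Topology
open scoped Real

namespace Pool.Agent.Helper67.NE

noncomputable def om : ℂ := cexp (((π / 3 : ℝ) : ℂ) * I)

noncomputable def cc : ℂ := cexp (((-(π / 3) : ℝ) : ℂ) * I) / 4

theorem om_sq : om ^ 2 = -4 * cc := by
  have h1 : om ^ 2 = cexp (((2 * (π / 3) : ℝ) : ℂ) * I) := by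
    rw [om, ← Complex.exp_nat_mul]
    congr 1
    push_cast
    ring
  have h2 : -4 * cc = cexp (π * I) * cexp (((-(π / 3) : ℝ) : ℂ) * I) := by
    rw [Complex.exp_pi_mul_I, cc]
    ring
  rw [h1, h2, ← Complex.exp_add]
  congr 1
  push_cast
  ring

theorem cc_re : cc.re = 1 / 8 := by
  have h : cc = ((1 / 4 : ℝ) : ℂ) * cexp (((-(π / 3) : ℝ) : ℂ) * I) := by
    rw [cc]; push_cast; ring
  rw [h, Complex.re_ofReal_mul, Complex.exp_ofReal_mul_I_re, Real.cos_neg, Real.cos_pi_div_three]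
  norm_num

theorem norm_om : ‖om‖ = 1 := Complex.norm_exp_ofReal_mul_I _

/-- the integrand -/
noncomputable def ker (z : ℂ) (x : ℝ) : ℂ := cexp (-cc * (x : ℂ) ^ 2 - z * x)

noncomputable def Phi (z : ℂ) : ℂ := ∫ x in Ioi (0 : ℝ), ker z x

theorem norm_ker (z : ℂ) (x : ℝ) : ‖ker z x‖ = Real.exp (-(1 / 8) * x ^ 2 - z.re * x) := by
  rw [ker, Complex.norm_exp]
  congr 1
  have h1 : ((x : ℂ) ^ 2) = ((x ^ 2 : ℝ) : ℂ) := by push_cast; rfl
  rw [h1]
  simp only [Complex.sub_re, Complex.mul_re, Complex.neg_re, Complex.ofReal_re, Complex.ofReal_im,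
    cc_re]
  ring

theorem ker_int (z : ℂ) : Integrable (ker z) := by
  have h := integrable_cexp_quadratic (b := cc) (by rw [cc_re]; norm_num) (-z) 0
  refine h.congr (Eventually.of_forall fun x => ?_)
  simp only [ker]
  congr 1
  ring

theorem ker_intOn (z : ℂ) : IntegrableOn (ker z) (Ioi 0) := (ker_int z).integrableOn

theorem gauss_int (M : ℝ) : Integrable (fun x : ℝ => Real.exp (-(1 / 8) * x ^ 2 + M * x)) := by
  have h := (ker_int (-M : ℂ)).norm
  refine h.congr (Eventually.of_forall fun x => ?_)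
  simp only [norm_ker]
  congr 1
  simp

theorem ker_cont (z : ℂ) : Continuous (ker z) := by
  unfold ker
  fun_prop

theorem Phi_hasDerivAt (z : ℂ) :
    HasDerivAt Phi (∫ x in Ioi (0 : ℝ), -(x : ℂ) * ker z x) z := by
  have h := hasDerivAt_integral_of_dominated_loc_of_deriv_le (𝕜 := ℂ) (E := ℂ)
    (μ := volume.restrict (Ioi (0 : ℝ))) (F := ker) (x₀ := z) (s := Metric.ball z 1)
    (F' := fun z x => -(x : ℂ) * ker z x)
    (bound := fun x => Real.exp (-(1 / 8) * x ^ 2 + (‖z‖ + 2) * x))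
    (Metric.ball_mem_nhds z one_pos)
    (Eventually.of_forall fun w => (ker_cont w).aestronglyMeasurable) (ker_intOn z)
    (by
      refine Continuous.aestronglyMeasurable ?_
      exact (Complex.continuous_ofReal.neg).mul (ker_cont z))
    (by
      refine (ae_restrict_iff' measurableSet_Ioi).2 (Eventually.of_forall fun x hx w hw => ?_)
      have hx : 0 < x := hx
      have hw : dist w z < 1 := hw
      rw [norm_mul, norm_neg, Complex.norm_real, Real.norm_of_nonneg hx.le, norm_ker]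
      have h1 : x ≤ Real.exp x := by linarith [Real.add_one_le_exp x]
      have h2 : -w.re ≤ ‖z‖ + 1 := by
        have h3 : |w.re| ≤ ‖w‖ := Complex.abs_re_le_norm w
        have h4 : ‖w‖ ≤ ‖z‖ + dist w z := by
          rw [dist_eq_norm]
          have := norm_add_le z (w - z)
          simpa using this
        have h5 := neg_abs_le w.re
        linarith
      calc x * Real.exp (-(1 / 8) * x ^ 2 - w.re * x)
          ≤ Real.exp x * Real.exp (-(1 / 8) * x ^ 2 - w.re * x) :=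
            mul_le_mul_of_nonneg_right h1 (Real.exp_pos _).le
        _ = Real.exp (x + (-(1 / 8) * x ^ 2 - w.re * x)) := by rw [Real.exp_add]
        _ ≤ _ := by
            apply Real.exp_le_exp.2
            nlinarith [mul_le_mul_of_nonneg_right h2 hx.le])
    (gauss_int _).integrableOn
    (by
      refine Eventually.of_forall fun x w _ => ?_
      have h1 : HasDerivAt (fun w : ℂ => -cc * (x : ℂ) ^ 2 - w * x) (-(x : ℂ)) w := by
        have h2 := ((hasDerivAt_id w).mul_const (x : ℂ)).const_sub (-cc * (x : ℂ) ^ 2)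
        simpa using h2
      have h3 := h1.cexp
      refine h3.congr_deriv ?_
      rw [ker]
      ring)
  exact h.2

theorem ker_mul_int (z : ℂ) : IntegrableOn (fun x : ℝ => (x : ℂ) * ker z x) (Ioi 0) := by
  refine Integrable.mono' (g := fun x => Real.exp (-(1 / 8) * x ^ 2 + (‖z‖ + 1) * x))
    (gauss_int _).integrableOn
    ((Complex.continuous_ofReal.mul (ker_cont z)).aestronglyMeasurable) ?_
  refine (ae_restrict_iff' measurableSet_Ioi).2 (Eventually.of_forall fun x hx => ?_)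
  have hx : 0 < x := hx
  rw [norm_mul, Complex.norm_real, Real.norm_of_nonneg hx.le, norm_ker]
  have h1 : x ≤ Real.exp x := by linarith [Real.add_one_le_exp x]
  have h2 : -z.re ≤ ‖z‖ := by
    have h3 : |z.re| ≤ ‖z‖ := Complex.abs_re_le_norm z
    have h5 := neg_abs_le z.re
    linarith
  calc x * Real.exp (-(1 / 8) * x ^ 2 - z.re * x)
      ≤ Real.exp x * Real.exp (-(1 / 8) * x ^ 2 - z.re * x) :=
        mul_le_mul_of_nonneg_right h1 (Real.exp_pos _).le
    _ = Real.exp (x + (-(1 / 8) * x ^ 2 - z.re * x)) := by rw [Real.exp_add]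
    _ ≤ _ := by
        apply Real.exp_le_exp.2
        nlinarith [mul_le_mul_of_nonneg_right h2 hx.le]

theorem ker_tendsto (z : ℂ) : Tendsto (ker z) atTop (𝓝 0) := by
  rw [tendsto_zero_iff_norm_tendsto_zero]
  have h1 : Tendsto (fun x : ℝ => -x) atTop atBot := tendsto_neg_atTop_atBot
  have h2 : Tendsto (fun x : ℝ => Real.exp (-x)) atTop (𝓝 0) := Real.tendsto_exp_atBot.comp h1
  refine tendsto_of_tendsto_of_tendsto_of_le_of_le' tendsto_const_nhds h2
    (Eventually.of_forall fun x => norm_nonneg _) ?_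
  filter_upwards [eventually_ge_atTop (8 * (‖z‖ + 1))] with x hx
  rw [norm_ker]
  apply Real.exp_le_exp.2
  have h2 : -z.re ≤ ‖z‖ := by
    have h3 : |z.re| ≤ ‖z‖ := Complex.abs_re_le_norm z
    have h5 := neg_abs_le z.re
    linarith
  have h0 : 0 ≤ x := le_trans (by positivity) hx
  nlinarith [mul_le_mul_of_nonneg_right h2 h0, mul_le_mul_of_nonneg_right hx h0]

theorem Phi_ode (z : ℂ) :
    (∫ x in Ioi (0 : ℝ), -(x : ℂ) * ker z x) = (z * Phi z - 1) / (2 * cc) := by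
  have hcc : cc ≠ 0 := by
    intro h
    have := cc_re
    rw [h] at this
    norm_num at this
  have h1 : ∀ x : ℝ, HasDerivAt (ker z) ((-2 * cc * x - z) * ker z x) x := by
    intro x
    have h2 : HasDerivAt (fun x : ℂ => -cc * x ^ 2 - z * x) (-2 * cc * x - z) (x : ℂ) := by
      have h3 := ((hasDerivAt_pow 2 (x : ℂ)).const_mul (-cc)).sub
        ((hasDerivAt_id (x : ℂ)).const_mul z)
      refine h3.congr_deriv ?_
      simp
      ring
    have h4 := (h2.comp_ofReal).cexp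
    refine h4.congr_deriv ?_
    rw [ker]
    ring
  have h5 := integral_Ioi_of_hasDerivAt_of_tendsto' (a := 0) (f := ker z)
    (f' := fun x => (-2 * cc * x - z) * ker z x) (m := 0) (fun x _ => h1 x)
    (by
      have h6 := ((ker_mul_int z).const_mul (-2 * cc)).sub ((ker_intOn z).const_mul z)
      refine h6.congr (Eventually.of_forall fun x => ?_)
      simp only [Pi.sub_apply]
      ring) (ker_tendsto z)
  have h7 : (∫ x in Ioi (0 : ℝ), (-2 * cc * x - z) * ker z x) =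
      2 * cc * (∫ x in Ioi (0 : ℝ), -(x : ℂ) * ker z x) - z * Phi z := by
    rw [Phi, ← integral_const_mul, ← integral_const_mul, ← integral_sub]
    · refine integral_congr_ae (Eventually.of_forall fun x => ?_)
      simp only
      ring
    · have h8 := (ker_mul_int z).const_mul (-(2 * cc))
      refine h8.congr (Eventually.of_forall fun x => ?_)
      simp only
      ring
    · exact (ker_intOn z).const_mul z
  rw [h7] at h5
  have h9 : ker z 0 = 1 := by simp [ker]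
  rw [h9] at h5
  rw [eq_div_iff (mul_ne_zero two_ne_zero hcc)]
  linear_combination h5

theorem Phi_deriv (z : ℂ) : HasDerivAt Phi ((z * Phi z - 1) / (2 * cc)) z := by
  rw [← Phi_ode]
  exact Phi_hasDerivAt z

theorem Phi_differentiable : Differentiable ℂ Phi := fun z => (Phi_deriv z).differentiableAt

theorem Phi_zero : om * Phi 0 = I * (√π : ℝ) := by
  have h1 : Phi 0 = (π / cc) ^ (1 / 2 : ℂ) / 2 := by
    rw [← integral_gaussian_complex_Ioi (by rw [cc_re]; norm_num), Phi]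
    refine integral_congr_ae (Eventually.of_forall fun x => ?_)
    simp [ker]
  have h2 : (π / cc : ℂ) = (2 * (√π : ℝ) * cexp (((π / 6 : ℝ) : ℂ) * I)) ^ 2 := by
    have h3 : ((√π : ℝ) : ℂ) ^ 2 = π := by
      rw [← Complex.ofReal_pow, Real.sq_sqrt Real.pi_pos.le]
    have h4 : cexp (((π / 6 : ℝ) : ℂ) * I) ^ 2 = cexp (((π / 3 : ℝ) : ℂ) * I) := by
      rw [← Complex.exp_nat_mul]
      congr 1
      push_cast
      ring
    have h5 : cc = (cexp (((π / 3 : ℝ) : ℂ) * I))⁻¹ / 4 := by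
      rw [cc, ← Complex.exp_neg]
      congr 2
      push_cast
      ring
    rw [mul_pow, mul_pow, h3, h4, h5]
    field_simp
    ring
  have h6 : ((2 * (√π : ℝ) * cexp (((π / 6 : ℝ) : ℂ) * I)) ^ 2 : ℂ) ^ (1 / 2 : ℂ) =
      2 * (√π : ℝ) * cexp (((π / 6 : ℝ) : ℂ) * I) := by
    have h7 : (2 * (√π : ℝ) * cexp (((π / 6 : ℝ) : ℂ) * I) : ℂ) =
        ((2 * √π : ℝ) : ℂ) * cexp (((π / 6 : ℝ) : ℂ) * I) := by push_cast; ring
    have h8 : 0 < 2 * √π := by positivity
    have h9 : (0 : ℝ) < (2 * (√π : ℝ) * cexp (((π / 6 : ℝ) : ℂ) * I) : ℂ).re := by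
      rw [h7, Complex.re_ofReal_mul, Complex.exp_ofReal_mul_I_re]
      have : 0 < Real.cos (π / 6) := by
        rw [Real.cos_pi_div_six]; positivity
      positivity
    have h10 := Complex.sq_cpow_two_inv h9
    rw [show (1 / 2 : ℂ) = 2⁻¹ by norm_num]
    exact h10
  rw [h1, h2, h6, om]
  have h10 : cexp (((π / 3 : ℝ) : ℂ) * I) * cexp (((π / 6 : ℝ) : ℂ) * I) = I := by
    rw [← Complex.exp_add]
    have h11 : ((π / 3 : ℝ) : ℂ) * I + ((π / 6 : ℝ) : ℂ) * I = π / 2 * I := by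
      push_cast
      ring
    rw [h11, Complex.exp_pi_div_two_mul_I]
  linear_combination (√π : ℝ) * h10

theorem im_om_Phi (n : ℝ) : (om * Phi (om * n)).im = √π * Real.exp (-n ^ 2) := by
  have hcc : cc ≠ 0 := by
    intro h
    have := cc_re
    rw [h] at this
    norm_num at this
  -- the function `exp (n^2) * om * Phi (om * n)` has real derivative
  have h1 : ∀ n : ℝ, HasDerivAt (fun n : ℝ => (Real.exp (n ^ 2) : ℂ) * (om * Phi (om * n)))
      ((2 * Real.exp (n ^ 2) : ℝ) : ℂ) n := by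
    intro n
    have h2 : HasDerivAt (fun n : ℝ => Real.exp (n ^ 2)) (Real.exp (n ^ 2) * (2 * n)) n := by
      have h3 := (hasDerivAt_pow 2 n).exp
      refine h3.congr_deriv ?_
      simp
    have h3 : HasDerivAt (fun n : ℝ => (Real.exp (n ^ 2) : ℂ))
        ((Real.exp (n ^ 2) * (2 * n) : ℝ) : ℂ) n := h2.ofReal_comp
    have h4 : HasDerivAt (fun z : ℂ => Phi (om * z))
        ((om * n * Phi (om * n) - 1) / (2 * cc) * om) (n : ℂ) := by
      have h5 : HasDerivAt (fun z : ℂ => om * z) om (n : ℂ) := by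
        simpa using (hasDerivAt_id (n : ℂ)).const_mul om
      exact (Phi_deriv (om * n)).comp (n : ℂ) h5
    have h5 := h3.mul ((h4.comp_ofReal).const_mul om)
    refine h5.congr_deriv ?_
    have h6 : om * ((om * n * Phi (om * n) - 1) / (2 * cc) * om) =
        2 - 2 * n * (om * Phi (om * n)) := by
      have h7 : om * ((om * n * Phi (om * n) - 1) / (2 * cc) * om) =
        (om * n * Phi (om * n) - 1) * (om ^ 2 / (2 * cc)) := by ring
      rw [h7, om_sq]
      field_simp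
      ring
    rw [h6]
    push_cast
    ring
  have h2 : ∀ n : ℝ, HasDerivAt (fun n : ℝ => ((Real.exp (n ^ 2) : ℂ) * (om * Phi (om * n))).im)
      0 n := by
    intro n
    have h3 := (Complex.imCLM.hasFDerivAt.comp_hasDerivAt n (h1 n))
    refine h3.congr_deriv ?_
    exact Complex.ofReal_im (2 * Real.exp (n ^ 2))
  have h3 : ((Real.exp (n ^ 2) : ℂ) * (om * Phi (om * n))).im =
      ((Real.exp ((0 : ℝ) ^ 2) : ℂ) * (om * Phi (om * (0 : ℝ)))).im :=
    is_const_of_deriv_eq_zero (f := fun n : ℝ => ((Real.exp (n ^ 2) : ℂ) * (om * Phi (om * n))).im)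
      (fun n => (h2 n).differentiableAt) (fun n => (h2 n).deriv) n 0
  have h4 : ((Real.exp ((0 : ℝ) ^ 2) : ℂ) * (om * Phi (om * (0 : ℝ)))).im = √π := by
    have h5 : ((Real.exp ((0 : ℝ) ^ 2) : ℂ) * (om * Phi (om * (0 : ℝ)))) = I * (√π : ℝ) := by
      rw [← Phi_zero]
      simp
    rw [h5]
    simp
  rw [h4, Complex.im_ofReal_mul] at h3
  rw [Real.exp_neg, ← h3]
  field_simp

theorem ex_re {w : ℂ} (h0 : 0 ≤ w.re) (h1 : w.re ≤ 1) : 0 ≤ (cexp (π / 2 * I * w)).re := by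
  rw [Complex.exp_re]
  refine mul_nonneg (Real.exp_pos _).le ?_
  have h2 : (π / 2 * I * w : ℂ).im = π / 2 * w.re := by
    simp [Complex.mul_im, Complex.mul_re]
  rw [h2]
  refine Real.cos_nonneg_of_neg_pi_div_two_le_of_le ?_ ?_
  · have := Real.pi_pos
    nlinarith
  · have := Real.pi_pos
    nlinarith

noncomputable def G0 : ℝ := ∫ x in Ioi (0 : ℝ), Real.exp (-(1 / 8) * x ^ 2)

noncomputable def G1 : ℝ := ∫ x in Ioi (0 : ℝ), Real.exp (-(1 / 8) * x ^ 2 + 2 * x)

theorem G0_nonneg : 0 ≤ G0 := integral_nonneg fun _ => (Real.exp_pos _).le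

theorem G1_nonneg : 0 ≤ G1 := integral_nonneg fun _ => (Real.exp_pos _).le

theorem gauss_int0 : Integrable (fun x : ℝ => Real.exp (-(1 / 8) * x ^ 2)) := by
  have := gauss_int 0
  simpa using this

theorem Phi_bound {z : ℂ} (hz : 0 ≤ z.re) : ‖Phi z‖ ≤ G0 := by
  refine (norm_integral_le_integral_norm _).trans ?_
  refine setIntegral_mono_on (ker_intOn z).norm gauss_int0.integrableOn measurableSet_Ioi
    fun x hx => ?_
  have hx : 0 < x := hx
  rw [norm_ker]
  apply Real.exp_le_exp.2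
  nlinarith [mul_nonneg hz hx.le]

section

variable {ι : Type} [Fintype ι] (u n : ι → ℝ)

noncomputable def ff (a : ℝ) : ℝ := ∑ i, u i * Real.exp (-(a * n i))

theorem ff_cont : Continuous (ff u n) := by
  unfold ff
  fun_prop

variable {u n}

theorem ff_le (hu : ∑ i, |u i| ≤ 1) (hn : ∀ i, 0 ≤ n i) {a : ℝ} (ha : 0 ≤ a) :
    |ff u n a| ≤ 1 := by
  refine (Finset.abs_sum_le_sum_abs _ _).trans (le_trans (Finset.sum_le_sum fun i _ => ?_) hu)
  rw [abs_mul, abs_of_pos (Real.exp_pos _)]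
  have h1 : Real.exp (-(a * n i)) ≤ 1 := by
    rw [Real.exp_le_one_iff]
    have := mul_nonneg ha (hn i)
    linarith
  nlinarith [abs_nonneg (u i)]

theorem sq_int : IntegrableOn (fun a : ℝ => ((1 + a) ^ 2)⁻¹) (Ioi 0) := by
  have h := integrableOn_add_rpow_Ioi_of_lt (a := -2) (c := 0) (m := 1) (by norm_num) (by norm_num)
  refine h.congr_fun (fun x hx => ?_) measurableSet_Ioi
  have hx : 0 < x := hx
  simp only
  rw [Real.rpow_neg (by linarith)]
  norm_num
  ring

theorem ff_int (hu : ∑ i, |u i| ≤ 1) (hn : ∀ i, 0 ≤ n i) :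
    IntegrableOn (fun a : ℝ => ff u n a ^ 2 / (1 + a) ^ 2) (Ioi 0) := by
  refine Integrable.mono' sq_int ?_ ?_
  · refine ContinuousOn.aestronglyMeasurable ?_ measurableSet_Ioi
    refine ContinuousOn.div ((ff_cont u n).pow 2).continuousOn (by fun_prop) ?_
    intro x hx
    have hx : 0 < x := hx
    positivity
  · refine (ae_restrict_iff' measurableSet_Ioi).2 (Eventually.of_forall fun x hx => ?_)
    have hx : 0 < x := hx
    rw [Real.norm_of_nonneg (by positivity), div_eq_mul_inv]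
    have h1 : ff u n x ^ 2 ≤ 1 := by
      have := ff_le hu hn hx.le
      rw [← sq_abs]
      nlinarith [abs_nonneg (ff u n x)]
    have h2 : 0 ≤ ((1 + x) ^ 2)⁻¹ := by positivity
    nlinarith

/-- the sum along a positive ray -/
theorem left_eq (l : ℝ) : (∑ i, (u i : ℂ) * (om * Phi (n i * l))) =
    om * ∫ x in Ioi (0 : ℝ), cexp (-cc * (x : ℂ) ^ 2) * (ff u n (l * x) : ℂ) := by
  have h1 : ∀ x : ℝ, cexp (-cc * (x : ℂ) ^ 2) * (ff u n (l * x) : ℂ) =
      ∑ i, (u i : ℂ) * ker (n i * l) x := by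
    intro x
    rw [ff, Complex.ofReal_sum, Finset.mul_sum]
    refine Finset.sum_congr rfl fun i _ => ?_
    rw [ker, Complex.exp_sub, Complex.ofReal_mul, Complex.ofReal_exp]
    have h2 : cexp (((-(l * x * n i) : ℝ)) : ℂ) = (cexp (n i * l * x))⁻¹ := by
      rw [← Complex.exp_neg]
      congr 1
      push_cast
      ring
    rw [h2]
    ring
  simp_rw [h1]
  rw [integral_finsetSum _ fun i _ => (ker_intOn _).const_mul _, Finset.mul_sum]
  refine Finset.sum_congr rfl fun i _ => ?_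
  rw [integral_const_mul, Phi]
  ring

theorem left_bound (hu : ∑ i, |u i| ≤ 1) (hn : ∀ i, 0 ≤ n i) {ε : ℝ} (hε : 0 < ε)
    (hI : (∫ a in Ioi (0 : ℝ), ff u n a ^ 2 / (1 + a) ^ 2) ≤ ε ^ 2) {l : ℝ} (hl : 0 < l) :
    ‖∑ i, (u i : ℂ) * (om * Phi (n i * l))‖ ≤ ε * ((1 + l) / √l) * ((1 + G1) / 2) := by
  rw [left_eq, norm_mul, norm_om, one_mul]
  have hsl : 0 < √l := Real.sqrt_pos.2 hl
  have hsq : √l * √l = l := Real.mul_self_sqrt hl.le
  set s : ℝ := (1 + l) * √l / ε with hs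
  have hs0 : 0 < s := by positivity
  have h1 : ∀ x ∈ Ioi (0 : ℝ), ‖cexp (-cc * (x : ℂ) ^ 2) * (ff u n (l * x) : ℂ)‖ ≤
      s / 2 * (ff u n (l * x) ^ 2 / (1 + l * x) ^ 2) +
        (1 + l) ^ 2 / (2 * s) * Real.exp (-(1 / 8) * x ^ 2 + 2 * x) := by
    intro x hx
    have hx : 0 < x := hx
    have h2 : ‖cexp (-cc * (x : ℂ) ^ 2)‖ = Real.exp (-(1 / 8) * x ^ 2) := by
      have := norm_ker 0 x
      simpa [ker] using this
    rw [norm_mul, h2, Complex.norm_real, Real.norm_eq_abs]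
    set E := Real.exp (-(1 / 8) * x ^ 2) with hE
    have hE0 : 0 < E := Real.exp_pos _
    have hE1 : E ≤ 1 := by
      rw [hE, Real.exp_le_one_iff]; nlinarith
    set p := |ff u n (l * x)| with hp
    have hp2 : ff u n (l * x) ^ 2 = p ^ 2 := (sq_abs _).symm
    rw [hp2, Real.exp_add, ← hE]
    have h3 : 0 < 1 + l * x := by positivity
    have h4 : (1 + l * x) ^ 2 ≤ (1 + l) ^ 2 * Real.exp (2 * x) := by
      have h5 : 1 + l * x ≤ (1 + l) * Real.exp x := by
        have h6 := Real.add_one_le_exp x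
        have h7 : (1 + l) * (x + 1) ≤ (1 + l) * Real.exp x :=
          mul_le_mul_of_nonneg_left h6 (by positivity)
        nlinarith
      have h8 : Real.exp (2 * x) = Real.exp x ^ 2 := by
        rw [← Real.exp_nat_mul]; norm_num
      rw [h8, ← mul_pow]
      exact pow_le_pow_left₀ h3.le h5 2
    have h9 : E * p ≤ s / 2 * (p ^ 2 / (1 + l * x) ^ 2) + (1 + l * x) ^ 2 * E ^ 2 / (2 * s) := by
      have h10 : s / 2 * (p ^ 2 / (1 + l * x) ^ 2) + (1 + l * x) ^ 2 * E ^ 2 / (2 * s) - E * p =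
          (s * p - (1 + l * x) ^ 2 * E) ^ 2 / (2 * s * (1 + l * x) ^ 2) := by
        field_simp
        ring
      have h11 : 0 ≤ (s * p - (1 + l * x) ^ 2 * E) ^ 2 / (2 * s * (1 + l * x) ^ 2) := by positivity
      linarith
    refine h9.trans (add_le_add le_rfl ?_)
    have h12 : (1 + l * x) ^ 2 * E ^ 2 ≤ (1 + l) ^ 2 * (E * Real.exp (2 * x)) := by
      have h13 : (1 + l * x) ^ 2 * E ^ 2 ≤ ((1 + l) ^ 2 * Real.exp (2 * x)) * E ^ 2 :=
        mul_le_mul_of_nonneg_right h4 (by positivity)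
      have h14 : E ^ 2 ≤ E := by nlinarith
      have h15 : ((1 + l) ^ 2 * Real.exp (2 * x)) * E ^ 2 ≤ ((1 + l) ^ 2 * Real.exp (2 * x)) * E :=
        mul_le_mul_of_nonneg_left h14 (by positivity)
      nlinarith
    rw [div_mul_eq_mul_div]
    exact div_le_div_of_nonneg_right h12 (by positivity)
  have hi1 : IntegrableOn (fun x => ff u n (l * x) ^ 2 / (1 + l * x) ^ 2) (Ioi 0) := by
    have := (integrableOn_Ioi_comp_mul_left_iff (fun a => ff u n a ^ 2 / (1 + a) ^ 2) 0 hl).2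
      (by simpa using ff_int hu hn)
    exact this
  have hi2 : IntegrableOn (fun x : ℝ => Real.exp (-(1 / 8) * x ^ 2 + 2 * x)) (Ioi 0) :=
    (gauss_int 2).integrableOn
  have hi3 : IntegrableOn (fun x => s / 2 * (ff u n (l * x) ^ 2 / (1 + l * x) ^ 2) +
      (1 + l) ^ 2 / (2 * s) * Real.exp (-(1 / 8) * x ^ 2 + 2 * x)) (Ioi 0) :=
    (hi1.const_mul _).add (hi2.const_mul _)
  have h2 : ‖∫ x in Ioi (0 : ℝ), cexp (-cc * (x : ℂ) ^ 2) * (ff u n (l * x) : ℂ)‖ ≤
      ∫ x in Ioi (0 : ℝ), (s / 2 * (ff u n (l * x) ^ 2 / (1 + l * x) ^ 2) +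
        (1 + l) ^ 2 / (2 * s) * Real.exp (-(1 / 8) * x ^ 2 + 2 * x)) :=
    norm_integral_le_of_norm_le hi3
      ((ae_restrict_iff' measurableSet_Ioi).2 (Eventually.of_forall h1))
  refine h2.trans ?_
  rw [integral_add (hi1.const_mul _) (hi2.const_mul _), integral_const_mul, integral_const_mul,
    integral_comp_mul_left_Ioi (fun a => ff u n a ^ 2 / (1 + a) ^ 2) 0 hl, mul_zero, smul_eq_mul]
  have h3 : s / 2 * (l⁻¹ * ∫ a in Ioi (0 : ℝ), ff u n a ^ 2 / (1 + a) ^ 2) ≤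
      s / 2 * (l⁻¹ * ε ^ 2) := by
    refine mul_le_mul_of_nonneg_left (mul_le_mul_of_nonneg_left hI (by positivity)) (by positivity)
  have h4 : s / 2 * (l⁻¹ * ε ^ 2) + (1 + l) ^ 2 / (2 * s) * G1 =
      ε * ((1 + l) / √l) * ((1 + G1) / 2) := by
    have h5 : l⁻¹ = (√l * √l)⁻¹ := by rw [hsq]
    rw [hs, h5]
    field_simp
  change _ + (1 + l) ^ 2 / (2 * s) * G1 ≤ _
  linarith

/-- the function to which the three lines theorem is applied -/
noncomputable def HH (u n : ι → ℝ) (w : ℂ) : ℂ :=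
  (∑ i, (u i : ℂ) * (om * Phi (n i * cexp (π / 2 * I * w)))) * cexp (w ^ 2)

theorem HH_diff (u n : ι → ℝ) : Differentiable ℂ (HH u n) := by
  unfold HH
  refine Differentiable.mul ?_ (by fun_prop)
  refine Differentiable.fun_sum fun i _ => ?_
  refine (Differentiable.const_mul ?_ _).const_mul _
  exact Phi_differentiable.comp (by fun_prop)

theorem HH_strip (hu : ∑ i, |u i| ≤ 1) (hn : ∀ i, 0 ≤ n i) {w : ℂ} (h0 : 0 ≤ w.re)
    (h1 : w.re ≤ 1) : ‖HH u n w‖ ≤ G0 * Real.exp 1 := by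
  rw [HH, norm_mul]
  refine mul_le_mul ?_ ?_ (norm_nonneg _) G0_nonneg
  · refine (norm_sum_le _ _).trans ?_
    have h2 : ∀ i, ‖(u i : ℂ) * (om * Phi (n i * cexp (π / 2 * I * w)))‖ ≤ |u i| * G0 := by
      intro i
      rw [norm_mul, norm_mul, norm_om, one_mul, Complex.norm_real, Real.norm_eq_abs]
      refine mul_le_mul_of_nonneg_left (Phi_bound ?_) (abs_nonneg _)
      rw [Complex.re_ofReal_mul]
      exact mul_nonneg (hn i) (ex_re h0 h1)
    refine (Finset.sum_le_sum fun i _ => h2 i).trans ?_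
    rw [← Finset.sum_mul]
    nlinarith [G0_nonneg]
  · rw [Complex.norm_exp]
    apply Real.exp_le_exp.2
    rw [sq, Complex.mul_re]
    nlinarith [mul_self_nonneg w.im]

theorem HH_left (hu : ∑ i, |u i| ≤ 1) (hn : ∀ i, 0 ≤ n i) {ε : ℝ} (hε : 0 < ε)
    (hI : (∫ a in Ioi (0 : ℝ), ff u n a ^ 2 / (1 + a) ^ 2) ≤ ε ^ 2) {w : ℂ} (hw : w.re = 0) :
    ‖HH u n w‖ ≤ ε * ((1 + G1) * Real.exp 1) := by
  set v := w.im with hv
  have hwv : w = v * I := by
    apply Complex.ext <;> simp [hw, hv]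
  set l : ℝ := Real.exp (-(π * v / 2)) with hl
  have hl0 : 0 < l := Real.exp_pos _
  have h1 : cexp (π / 2 * I * w) = (l : ℂ) := by
    rw [hl, Complex.ofReal_exp, hwv]
    congr 1
    push_cast
    linear_combination (π / 2 * v : ℂ) * I_mul_I
  have h2 : ‖cexp (w ^ 2)‖ = Real.exp (-v ^ 2) := by
    rw [Complex.norm_exp, sq, Complex.mul_re, hw]
    congr 1
    ring
  rw [HH, norm_mul, h1, h2]
  have h3 := left_bound hu hn hε hI hl0
  have h4 : √l = Real.exp (-(π * v / 4)) := by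
    rw [hl, Real.sqrt_eq_rpow, ← Real.exp_mul]
    congr 1
    ring
  have h5 : (1 + l) / √l = Real.exp (π * v / 4) + Real.exp (-(π * v / 4)) := by
    rw [h4, hl, div_eq_iff (Real.exp_pos _).ne', add_mul, ← Real.exp_add, ← Real.exp_add]
    have e1 : π * v / 4 + -(π * v / 4) = 0 := by ring
    have e2 : -(π * v / 4) + -(π * v / 4) = -(π * v / 2) := by ring
    rw [e1, e2, Real.exp_zero]
  have hpi : π < 4 := by have := Real.pi_lt_four; linarith
  have hpi0 := Real.pi_pos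
  have h6 : Real.exp (π * v / 4) * Real.exp (-v ^ 2) ≤ Real.exp 1 := by
    rw [← Real.exp_add]
    apply Real.exp_le_exp.2
    nlinarith [sq_nonneg (v - π / 8), mul_pos hpi0 hpi0]
  have h7 : Real.exp (-(π * v / 4)) * Real.exp (-v ^ 2) ≤ Real.exp 1 := by
    rw [← Real.exp_add]
    apply Real.exp_le_exp.2
    nlinarith [sq_nonneg (v + π / 8), mul_pos hpi0 hpi0]
  rw [h5] at h3
  have h8 : 0 ≤ ε * ((1 + G1) / 2) := by
    have := G1_nonneg
    positivity
  calc ‖∑ i, (u i : ℂ) * (om * Phi (n i * l))‖ * Real.exp (-v ^ 2)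
      ≤ (ε * (Real.exp (π * v / 4) + Real.exp (-(π * v / 4))) * ((1 + G1) / 2)) *
          Real.exp (-v ^ 2) := mul_le_mul_of_nonneg_right h3 (Real.exp_pos _).le
    _ = ε * ((1 + G1) / 2) * (Real.exp (π * v / 4) * Real.exp (-v ^ 2) +
          Real.exp (-(π * v / 4)) * Real.exp (-v ^ 2)) := by ring
    _ ≤ ε * ((1 + G1) / 2) * (Real.exp 1 + Real.exp 1) :=
          mul_le_mul_of_nonneg_left (add_le_add h6 h7) h8
    _ = _ := by ring

theorem HH_mid (u n : ι → ℝ) : √π * |∑ i, u i * Real.exp (-n i ^ 2)| ≤ ‖HH u n (2 / 3)‖ := by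
  have h1 : cexp (π / 2 * I * (2 / 3)) = om := by
    rw [om]
    congr 1
    push_cast
    ring
  have h2 : 1 ≤ ‖cexp ((2 / 3 : ℂ) ^ 2)‖ := by
    rw [Complex.norm_exp]
    apply Real.one_le_exp
    norm_num [sq]
  rw [HH, norm_mul, h1]
  set S := ∑ i, (u i : ℂ) * (om * Phi (n i * om)) with hS
  have h3 : S.im = √π * ∑ i, u i * Real.exp (-n i ^ 2) := by
    rw [hS, Complex.im_sum, Finset.mul_sum]
    refine Finset.sum_congr rfl fun i _ => ?_
    rw [Complex.im_ofReal_mul, mul_comm (n i : ℂ) om, im_om_Phi]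
    ring
  have h4 : √π * |∑ i, u i * Real.exp (-n i ^ 2)| = |S.im| := by
    rw [h3, abs_mul, abs_of_nonneg (Real.sqrt_nonneg _)]
  rw [h4]
  have h5 : |S.im| ≤ ‖S‖ := Complex.abs_im_le_norm S
  nlinarith [norm_nonneg S]

theorem gauss_pos (hu : ∑ i, |u i| ≤ 1) (hn : ∀ i, 0 ≤ n i) {ε : ℝ} (hε : 0 < ε)
    (hI : (∫ a in Ioi (0 : ℝ), ff u n a ^ 2 / (1 + a) ^ 2) ≤ ε ^ 2) :
    √π * |∑ i, u i * Real.exp (-n i ^ 2)| ≤
      (((1 + G1) * Real.exp 1) ^ (1 / 3 : ℝ) * (G0 * Real.exp 1) ^ (2 / 3 : ℝ)) *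
        ε ^ (1 / 3 : ℝ) := by
  refine (HH_mid u n).trans ?_
  have h1 := Complex.HadamardThreeLines.norm_le_interp_of_mem_verticalClosedStrip₀₁' (HH u n)
    (z := (2 / 3 : ℂ)) (a := ε * ((1 + G1) * Real.exp 1)) (b := G0 * Real.exp 1)
    (by
      rw [Complex.HadamardThreeLines.verticalClosedStrip, mem_preimage]
      norm_num)
    (HH_diff u n).diffContOnCl
    (by
      refine ⟨G0 * Real.exp 1, ?_⟩
      rintro _ ⟨w, hw, rfl⟩
      rw [Complex.HadamardThreeLines.verticalClosedStrip, mem_preimage] at hw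
      exact HH_strip hu hn hw.1 hw.2)
    (fun w hw => HH_left hu hn hε hI hw)
    (fun w hw => by
      have hw : w.re = 1 := hw
      exact HH_strip hu hn (by linarith) hw.le)
  refine h1.trans (le_of_eq ?_)
  have h2 : ((2 / 3 : ℂ)).re = 2 / 3 := by norm_num
  have h3 : 0 ≤ (1 + G1) * Real.exp 1 := by
    have := G1_nonneg
    positivity
  rw [h2, show (1 - 2 / 3 : ℝ) = 1 / 3 by norm_num, Real.mul_rpow hε.le h3]
  ring

end

/-- The Gaussian is controlled by the `L²`-size of the Laplace transform on the positive axis. -/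
theorem gauss_ineq : ∃ C : ℝ, 0 < C ∧ ∀ (ι : Type) [Fintype ι] (u n : ι → ℝ) (ε : ℝ), 0 ≤ ε →
    (∑ i, |u i|) ≤ 1 → (∀ i, 0 ≤ n i) →
    (∫ a in Set.Ioi (0 : ℝ), (∑ i, u i * Real.exp (-(a * n i))) ^ 2 * (1 + a) ^ (-2 : ℤ)) ≤ ε ^ 2 →
    |∑ i, u i * Real.exp (-(n i) ^ 2)| ≤ C * ε ^ (1 / 3 : ℝ) := by
  set A : ℝ := ((1 + G1) * Real.exp 1) ^ (1 / 3 : ℝ) * (G0 * Real.exp 1) ^ (2 / 3 : ℝ) with hA
  have hA0 : 0 ≤ A := by
    have h1 := G1_nonneg
    have h2 := G0_nonneg
    positivity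
  have hspi : 0 < √π := Real.sqrt_pos.2 Real.pi_pos
  refine ⟨A / √π + 1, by positivity, ?_⟩
  intro ι _ u n ε hε hu hn hI
  have hI' : (∫ a in Ioi (0 : ℝ), ff u n a ^ 2 / (1 + a) ^ 2) ≤ ε ^ 2 := by
    refine le_trans (le_of_eq ?_) hI
    refine integral_congr_ae (Eventually.of_forall fun a => ?_)
    simp only [ff]
    rw [zpow_neg, div_eq_mul_inv]
    norm_cast
  have key : ∀ δ : ℝ, 0 < δ → |∑ i, u i * Real.exp (-(n i) ^ 2)| ≤ A / √π * (ε + δ) ^ (1 / 3 : ℝ) := by
    intro δ hδ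
    have h1 := gauss_pos (u := u) (n := n) hu hn (ε := ε + δ) (by linarith)
      (hI'.trans (by nlinarith))
    rw [← hA] at h1
    rw [div_mul_eq_mul_div, le_div_iff₀ hspi]
    linarith
  have h2 : |∑ i, u i * Real.exp (-(n i) ^ 2)| ≤ A / √π * ε ^ (1 / 3 : ℝ) := by
    have h3 : Tendsto (fun δ : ℝ => A / √π * (ε + δ) ^ (1 / 3 : ℝ)) (𝓝[>] 0)
        (𝓝 (A / √π * (ε + 0) ^ (1 / 3 : ℝ))) := by
      refine Tendsto.mono_left ?_ nhdsWithin_le_nhds
      refine Tendsto.const_mul _ ?_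
      have h4 : Continuous (fun δ : ℝ => (ε + δ) ^ (1 / 3 : ℝ)) := by
        refine Continuous.rpow_const (by fun_prop) fun x => Or.inr (by norm_num)
      exact h4.tendsto 0
    rw [add_zero] at h3
    refine ge_of_tendsto h3 ?_
    filter_upwards [self_mem_nhdsWithin] with δ hδ
    exact key δ hδ
  have h5 : 0 ≤ ε ^ (1 / 3 : ℝ) := Real.rpow_nonneg hε _
  nlinarith

end Pool.Agent.Helper67.NE
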